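import Pool.Agent.H74.NB.Dec

/-!
# NB Neck: the maximum principle in the annulus between two scales
-/

set_option autoImplicit false

open Topology Filter Metric Bornology

namespace Pool.Agent.H59.NB

open Pool.Agent.H74.NB

variable {E : Type*} [NormedAddCommGroup E] [NormedSpace ℂ E]

/-- the open annulus -/
def Ann (b : ℂ) (r₁ r₂ : ℝ) : Set ℂ := {z | r₁ < dist z b ∧ dist z b < r₂}

theorem isOpen_Ann (b : ℂ) (r₁ r₂ : ℝ) : IsOpen (Ann b r₁ r₂) :=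
  (isOpen_lt continuous_const (continuous_id.dist continuous_const)).inter
    (isOpen_lt (continuous_id.dist continuous_const) continuous_const)

theorem closure_Ann (b : ℂ) (r₁ r₂ : ℝ) : closure (Ann b r₁ r₂) ⊆ {z | r₁ ≤ dist z b ∧ dist z b ≤ r₂} := by
  refine closure_minimal (fun z hz => ⟨hz.1.le, hz.2.le⟩) ?_
  exact (isClosed_le continuous_const (continuous_id.dist continuous_const)).inter
    (isClosed_le (continuous_id.dist continuous_const) continuous_const)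

theorem bounded_Ann (b : ℂ) (r₁ r₂ : ℝ) : IsBounded (Ann b r₁ r₂) :=
  isBounded_ball.subset (s := Ann b r₁ r₂) (t := ball b r₂) fun _ hz => hz.2

theorem frontier_Ann {b : ℂ} {r₁ r₂ : ℝ} {z : ℂ} (hz : z ∈ frontier (Ann b r₁ r₂)) : dist z b = r₁ ∨ dist z b = r₂ := by
  rw [frontier, (isOpen_Ann b r₁ r₂).interior_eq] at hz
  obtain ⟨h1, h2⟩ := closure_Ann b r₁ r₂ hz.1
  by_contra hcon
  push Not at hcon
  exact hz.2 ⟨lt_of_le_of_ne h1 (Ne.symm hcon.1), lt_of_le_of_ne h2 hcon.2⟩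

/-- The maximum principle on an annulus. -/
theorem max_ann {b : ℂ} {r₁ r₂ C : ℝ} {g : ℂ → E} (hg : ∀ z, r₁ ≤ dist z b → dist z b ≤ r₂ → DifferentiableAt ℂ g z)
    (h1 : ∀ z, dist z b = r₁ → ‖g z‖ ≤ C) (h2 : ∀ z, dist z b = r₂ → ‖g z‖ ≤ C) {z : ℂ} (hz1 : r₁ ≤ dist z b) (hz2 : dist z b ≤ r₂) :
    ‖g z‖ ≤ C := by
  rcases eq_or_lt_of_le hz1 with he | hlt1
  · exact h1 z he.symm
  rcases eq_or_lt_of_le hz2 with he | hlt2
  · exact h2 z he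
  have hd : DiffContOnCl ℂ g (Ann b r₁ r₂) := by
    refine DifferentiableOn.diffContOnCl fun x hx => ?_
    obtain ⟨h3, h4⟩ := closure_Ann b r₁ r₂ hx
    exact (hg x h3 h4).differentiableWithinAt
  refine Complex.norm_le_of_forall_mem_frontier_norm_le (bounded_Ann b r₁ r₂) hd (fun x hx => ?_) (subset_closure ⟨hlt1, hlt2⟩)
  rcases frontier_Ann hx with h | h
  · exact h1 x h
  · exact h2 x h

/-- No holomorphic function on an annulus is larger at interior points than on each of the boundary circles. -/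
theorem no_peak {b : ℂ} {r₁ r₂ : ℝ} {g : ℂ → E} (hg : ∀ z, r₁ ≤ dist z b → dist z b ≤ r₂ → DifferentiableAt ℂ g z)
    {z₁ z₂ : ℂ} (hz1 : r₁ < dist z₁ b) (hz1' : dist z₁ b < r₂) (hz2 : r₁ < dist z₂ b) (hz2' : dist z₂ b < r₂)
    (h1 : ∀ z, dist z b = r₁ → ‖g z‖ < ‖g z₁‖) (h2 : ∀ z, dist z b = r₂ → ‖g z‖ < ‖g z₂‖) : False := by
  have hd : DiffContOnCl ℂ g (Ann b r₁ r₂) := by
    refine DifferentiableOn.diffContOnCl fun x hx => ?_
    obtain ⟨h3, h4⟩ := closure_Ann b r₁ r₂ hx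
    exact (hg x h3 h4).differentiableWithinAt
  obtain ⟨x, hx, hmax⟩ := Complex.exists_mem_frontier_isMaxOn_norm (bounded_Ann b r₁ r₂) ⟨z₁, hz1, hz1'⟩ hd
  have h3 : ‖g z₁‖ ≤ ‖g x‖ := hmax (subset_closure (show z₁ ∈ Ann b r₁ r₂ from ⟨hz1, hz1'⟩))
  have h4 : ‖g z₂‖ ≤ ‖g x‖ := hmax (subset_closure (show z₂ ∈ Ann b r₁ r₂ from ⟨hz2, hz2'⟩))
  rcases frontier_Ann hx with h | h
  · exact absurd h3 (not_le.2 (h1 x h))
  · exact absurd h4 (not_le.2 (h2 x h))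

variable {𝒰 : Ultrafilter ℕ}

/-- **The neck.** `Φ n` converges outside `w` to a function with a zero of order `M` with leading coefficient `v`; at the scale `ρ n` the limit is
a function with a pole of the order `M` at infinity with the same leading coefficient. Then `Φ n / (z - b n) ^ M` is close to `v` between the scales. -/
theorem neck_close {Φ : ℕ → ℂ → E} {w : ℂ} {M : ℕ} {G : ℂ → E} {r : ℝ} (hr : 0 < r)
    (hol : ∀ᶠ n in (𝒰 : Filter ℕ), DifferentiableOn ℂ (Φ n) (ball w r))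
    (cc : CC 𝒰 Φ (fun z => (z - w) ^ M • G z) (ball w r)) (holG : ContinuousAt G w)
    {b : ℕ → ℂ} {ρ : ℕ → ℝ} (hb : Tendsto b 𝒰 (𝓝 w)) (hρp : ∀ᶠ n in (𝒰 : Filter ℕ), 0 < ρ n)
    {P : ℂ → E} (hP : CC 𝒰 (fun n ζ => ((ρ n : ℂ) ^ M)⁻¹ • Φ n (b n + ρ n * ζ)) P Set.univ)
    (hP1 : Tendsto (fun ζ : ℂ => (ζ ^ M)⁻¹ • P ζ) (cobounded ℂ) (𝓝 (G w))) {ε : ℝ} (hε : 0 < ε) :
    ∃ R s : ℝ, 0 < R ∧ 0 < s ∧ s < r ∧ ∀ R', R ≤ R' → ∀ s', 0 < s' → s' ≤ s → ∀ᶠ n in (𝒰 : Filter ℕ), ∀ z, R' * ρ n ≤ dist z (b n) →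
      dist z (b n) ≤ s' → ‖((z - b n) ^ M)⁻¹ • Φ n z - G w‖ ≤ ε := by
  obtain ⟨R, hR⟩ : ∃ R : ℝ, ∀ ζ : ℂ, R ≤ ‖ζ‖ → ‖(ζ ^ M)⁻¹ • P ζ - G w‖ < ε / 2 := by
    have h1 : ∀ᶠ ζ in cobounded ℂ, ‖(ζ ^ M)⁻¹ • P ζ - G w‖ < ε / 2 := by
      have := (hP1.sub_const (G w)).norm
      rw [sub_self, norm_zero] at this
      exact this.eventually (gt_mem_nhds (half_pos hε))
    rw [← comap_norm_atTop] at h1
    obtain ⟨t, ht, hts⟩ := h1
    obtain ⟨R, hR⟩ := mem_atTop_sets.1 ht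
    exact ⟨R, fun ζ hζ => hts (hR _ hζ)⟩
  obtain ⟨s, hs0, hs⟩ : ∃ s, 0 < s ∧ ∀ z ∈ ball w s, ‖G z - G w‖ < ε / 2 := by
    have h1 : ∀ᶠ z in 𝓝 w, ‖G z - G w‖ < ε / 2 := by
      have := (holG.tendsto.sub_const (G w)).norm
      rw [sub_self, norm_zero] at this
      exact this.eventually (gt_mem_nhds (half_pos hε))
    obtain ⟨s, hs, hs'⟩ := Metric.mem_nhds_iff.1 h1
    exact ⟨s, hs, fun z hz => hs' hz⟩
  refine ⟨max R 1, min s r / 2, by positivity, by positivity, ?_, ?_⟩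
  · have := min_le_right s r
    have : 0 < min s r := lt_min hs0 hr
    linarith [min_le_right s r]
  intro R' hR' s' hs'0 hs'
  have hR'R : R ≤ R' := (le_max_left _ _).trans hR'
  have hR'1 : 1 ≤ R' := (le_max_right _ _).trans hR'
  have hs's : s' < s := by
    have : 0 < min s r := lt_min hs0 hr
    linarith [min_le_left s r]
  have hs'r : s' < r := by
    have : 0 < min s r := lt_min hs0 hr
    linarith [min_le_right s r]
  -- the inner circle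
  have hin : ∀ᶠ n in (𝒰 : Filter ℕ), ∀ ζ ∈ sphere (0 : ℂ) R', ‖(ζ ^ M)⁻¹ • (((ρ n : ℂ) ^ M)⁻¹ • Φ n (b n + ρ n * ζ)) - G w‖ < ε := by
    refine unif_of_seq (isCompact_sphere _ _) fun ζ₀ hζ₀ ζ hζ1 hζ2 => ?_
    have hn : ‖ζ₀‖ = R' := by simpa using hζ₀
    have h0 : ζ₀ ≠ 0 := by
      rintro rfl
      rw [norm_zero] at hn
      linarith
    have h1 := hP ζ₀ (Set.mem_univ _) ζ hζ2
    have h2 : Tendsto (fun n => (ζ n ^ M)⁻¹ • (((ρ n : ℂ) ^ M)⁻¹ • Φ n (b n + ρ n * ζ n)) - G w) 𝒰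
        (𝓝 ((ζ₀ ^ M)⁻¹ • P ζ₀ - G w)) :=
      (((hζ2.pow M).inv₀ (pow_ne_zero _ h0)).smul h1).sub_const _
    have h3 := h2.norm.eventually (gt_mem_nhds ((hR ζ₀ (hR'R.trans hn.ge)).trans (half_lt_self hε)))
    exact h3.frequently
  -- the outer circle
  have hout : ∀ᶠ n in (𝒰 : Filter ℕ), ∀ y ∈ sphere (0 : ℂ) s', ‖(y ^ M)⁻¹ • Φ n (b n + y) - G w‖ < ε := by
    refine unif_of_seq (isCompact_sphere _ _) fun y₀ hy₀ y hy1 hy2 => ?_
    have hn : ‖y₀‖ = s' := by simpa using hy₀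
    have h0 : y₀ ≠ 0 := by
      rintro rfl
      rw [norm_zero] at hn
      linarith
    have hmem : w + y₀ ∈ ball w r := by
      rw [mem_ball, dist_eq_norm, add_sub_cancel_left, hn]
      exact hs'r
    have hmem' : w + y₀ ∈ ball w s := by
      rw [mem_ball, dist_eq_norm, add_sub_cancel_left, hn]
      exact hs's
    have h1 := cc (w + y₀) hmem (fun n => b n + y n) (hb.add hy2)
    have h2 : Tendsto (fun n => (y n ^ M)⁻¹ • Φ n (b n + y n) - G w) 𝒰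
        (𝓝 ((y₀ ^ M)⁻¹ • ((w + y₀ - w) ^ M • G (w + y₀)) - G w)) :=
      (((hy2.pow M).inv₀ (pow_ne_zero _ h0)).smul h1).sub_const _
    rw [add_sub_cancel_left, smul_smul, inv_mul_cancel₀ (pow_ne_zero _ h0), one_smul] at h2
    have h3 := h2.norm.eventually (gt_mem_nhds ((hs _ hmem').trans (half_lt_self hε)))
    exact h3.frequently
  have hb' : ∀ᶠ n in (𝒰 : Filter ℕ), dist (b n) w < r - s' :=
    hb.eventually (ball_mem_nhds w (by linarith))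
  filter_upwards [hin, hout, hb', hρp, hol] with n h1 h2 h3 h4 h5 z hz1 hz2
  have h6 : ∀ x, dist x (b n) = R' * ρ n → ‖((x - b n) ^ M)⁻¹ • Φ n x - G w‖ ≤ ε := by
    intro x hx
    have hρ0 : (ρ n : ℂ) ≠ 0 := by exact_mod_cast h4.ne'
    have hx' : x = b n + ρ n * ((x - b n) / ρ n) := by
      field_simp
      ring
    have h7 := (h1 ((x - b n) / ρ n) (by
      rw [mem_sphere_zero_iff_norm, norm_div, Complex.norm_real, Real.norm_of_nonneg h4.le, ← dist_eq_norm, hx, mul_div_assoc,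
        div_self h4.ne', mul_one])).le
    rw [← hx', smul_smul, div_pow, inv_div] at h7
    rwa [show (ρ n : ℂ) ^ M / (x - b n) ^ M * ((ρ n : ℂ) ^ M)⁻¹ = ((x - b n) ^ M)⁻¹ by
      field_simp] at h7
  have h7 : ∀ x, dist x (b n) = s' → ‖((x - b n) ^ M)⁻¹ • Φ n x - G w‖ ≤ ε := by
    intro x hx
    have h8 := (h2 (x - b n) (by rw [mem_sphere_zero_iff_norm, ← dist_eq_norm, hx])).le
    rwa [add_sub_cancel] at h8
  refine max_ann (g := fun z => ((z - b n) ^ M)⁻¹ • Φ n z - G w) ?_ h6 h7 hz1 hz2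
  intro x hx1 hx2
  have hx3 : x ∈ ball w r := by
    rw [mem_ball]
    linarith [dist_triangle x (b n) w]
  have hx4 : x - b n ≠ 0 := by
    intro h0
    rw [dist_eq_norm, h0, norm_zero] at hx1
    nlinarith
  have h8 : DifferentiableAt ℂ (Φ n) x := h5.differentiableAt (isOpen_ball.mem_nhds hx3)
  exact ((((differentiableAt_id.sub_const (b n)).pow M).inv (pow_ne_zero _ hx4)).smul h8).sub_const _

/-- **Windings do not decrease outwards.** `h n` is holomorphic between the scales, its limit at the outer scale behaves like `(z - w) ^ q`, its limit at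
the inner scale behaves like `ζ ^ p` at infinity. Then `p ≤ q`. -/
theorem neck_mono {h : ℕ → ℂ → ℂ} {w : ℂ} {r : ℝ} (hr : 0 < r) {R : ℝ} {b : ℕ → ℂ} {ρ : ℕ → ℝ}
    (hd : ∀ᶠ n in (𝒰 : Filter ℕ), ∀ z, R * ρ n < dist z (b n) → dist z (b n) < r → DifferentiableAt ℂ (h n) z)
    (hb : Tendsto b 𝒰 (𝓝 w)) (hρp : ∀ᶠ n in (𝒰 : Filter ℕ), 0 < ρ n) (hρ : Tendsto ρ 𝒰 (𝓝 0))
    {h₀ : ℂ → ℂ} (hout : CC 𝒰 h h₀ {z | z ≠ w ∧ dist z w < r}) {q : ℤ} {c₀ : ℂ} (hc₀ : c₀ ≠ 0)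
    (hq : Tendsto (fun z => h₀ z / (z - w) ^ q) (𝓝[≠] w) (𝓝 c₀))
    {t : ℕ → ℂ} (ht : ∀ᶠ n in (𝒰 : Filter ℕ), t n ≠ 0) {k : ℂ → ℂ}
    (hin : CC 𝒰 (fun n ζ => h n (b n + ρ n * ζ) / t n) k {ζ | R < ‖ζ‖}) {p : ℤ} {c₁ : ℂ} (hc₁ : c₁ ≠ 0)
    (hp : Tendsto (fun ζ => k ζ / ζ ^ p) (cobounded ℂ) (𝓝 c₁)) : p ≤ q := by
  by_contra hpq
  push Not at hpq
  -- the inner radius
  obtain ⟨R₁, hR₁R, hR₁1, hR₁⟩ : ∃ R₁ : ℝ, R < R₁ ∧ 1 ≤ R₁ ∧ ∀ ζ : ℂ, R₁ ≤ ‖ζ‖ → 3 / 4 * ‖c₁‖ < ‖k ζ / ζ ^ p‖ ∧ ‖k ζ / ζ ^ p‖ < 5 / 4 * ‖c₁‖ := by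
    have hc : 0 < ‖c₁‖ := norm_pos_iff.2 hc₁
    have h1 : ∀ᶠ ζ in cobounded ℂ, 3 / 4 * ‖c₁‖ < ‖k ζ / ζ ^ p‖ ∧ ‖k ζ / ζ ^ p‖ < 5 / 4 * ‖c₁‖ :=
      (hp.norm.eventually (lt_mem_nhds (by linarith))).and (hp.norm.eventually (gt_mem_nhds (by linarith)))
    rw [← comap_norm_atTop] at h1
    obtain ⟨u, hu, hus⟩ := h1
    obtain ⟨R₁, hR₁⟩ := mem_atTop_sets.1 hu
    refine ⟨max R₁ (max (R + 1) 1), ?_, (le_max_right _ _).trans (le_max_right _ _), fun ζ hζ => hus (hR₁ _ ((le_max_left _ _).trans hζ))⟩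
    exact (lt_add_one R).trans_le ((le_max_left _ _).trans (le_max_right _ _))
  -- the outer radius
  obtain ⟨s, hs0, hsr, hs⟩ : ∃ s : ℝ, 0 < s ∧ s < r ∧ ∀ z, z ≠ w → dist z w ≤ s → 3 / 4 * ‖c₀‖ < ‖h₀ z / (z - w) ^ q‖ ∧
      ‖h₀ z / (z - w) ^ q‖ < 5 / 4 * ‖c₀‖ := by
    have hc : 0 < ‖c₀‖ := norm_pos_iff.2 hc₀
    have h1 : ∀ᶠ z in 𝓝[≠] w, 3 / 4 * ‖c₀‖ < ‖h₀ z / (z - w) ^ q‖ ∧ ‖h₀ z / (z - w) ^ q‖ < 5 / 4 * ‖c₀‖ :=
      (hq.norm.eventually (lt_mem_nhds (by linarith))).and (hq.norm.eventually (gt_mem_nhds (by linarith)))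
    rw [eventually_nhdsWithin_iff] at h1
    obtain ⟨s, hs, hs'⟩ := Metric.mem_nhds_iff.1 h1
    refine ⟨min s r / 2, by positivity, by linarith [min_le_right s r, lt_min hs hr], fun z hz hzs => hs' ?_ hz⟩
    rw [mem_ball]
    linarith [min_le_left s r, lt_min hs hr]
  set j : ℤ := 2 * q + 1 with hj
  -- the inner estimates
  have hin1 : ∀ᶠ n in (𝒰 : Filter ℕ), ∀ ζ ∈ sphere (0 : ℂ) R₁,
      ‖(h n (b n + ρ n * ζ) / t n) ^ 2 / ζ ^ j‖ < (5 / 4 * ‖c₁‖) ^ 2 * R₁ ^ (2 * p - j) := by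
    refine unif_of_seq (isCompact_sphere _ _) fun ζ₀ hζ₀ ζ hζ1 hζ2 => ?_
    have hn : ‖ζ₀‖ = R₁ := by simpa using hζ₀
    have h0 : ζ₀ ≠ 0 := by
      rintro rfl
      rw [norm_zero] at hn
      linarith
    have h1 := hin ζ₀ (by rw [Set.mem_ofPred_eq, hn]; exact hR₁R) ζ hζ2
    have h2 : Tendsto (fun n => (h n (b n + ρ n * ζ n) / t n) ^ 2 / ζ n ^ j) 𝒰 (𝓝 (k ζ₀ ^ 2 / ζ₀ ^ j)) :=
      (h1.pow 2).div (hζ2.zpow₀ j (Or.inl h0)) (zpow_ne_zero _ h0)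
    have h3 : ‖k ζ₀ ^ 2 / ζ₀ ^ j‖ < (5 / 4 * ‖c₁‖) ^ 2 * R₁ ^ (2 * p - j) := by
      have h4 := (hR₁ ζ₀ hn.ge).2
      have h5 : k ζ₀ ^ 2 / ζ₀ ^ j = (k ζ₀ / ζ₀ ^ p) ^ 2 * ζ₀ ^ (2 * p - j) := by
        rw [zpow_sub₀ h0, div_pow, ← zpow_natCast (ζ₀ ^ p) 2, ← zpow_mul, mul_comm p]
        have := zpow_ne_zero (2 * p) h0
        push_cast
        field_simp
      rw [h5, norm_mul, norm_pow, norm_zpow, hn]
      have h6 : 0 < R₁ ^ (2 * p - j) := zpow_pos (by linarith) _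
      gcongr
    exact (h2.norm.eventually (gt_mem_nhds h3)).frequently
  have hin2 : ∀ᶠ n in (𝒰 : Filter ℕ),
      (3 / 4 * ‖c₁‖) ^ 2 * (4 * R₁) ^ (2 * p - j) < ‖(h n (b n + ρ n * ((4 * R₁ : ℝ) : ℂ)) / t n) ^ 2 / ((4 * R₁ : ℝ) : ℂ) ^ j‖ := by
    have hn : ‖((4 * R₁ : ℝ) : ℂ)‖ = 4 * R₁ := by
      rw [Complex.norm_real, Real.norm_of_nonneg (by linarith)]
    set ζ₀ : ℂ := ((4 * R₁ : ℝ) : ℂ) with hζ₀
    have h0 : ζ₀ ≠ 0 := by
      intro h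
      rw [h, norm_zero] at hn
      linarith
    have h1 := hin ζ₀ (by rw [Set.mem_ofPred_eq, hn]; linarith) (fun _ => ζ₀) tendsto_const_nhds
    have h2 : Tendsto (fun n => (h n (b n + ρ n * ζ₀) / t n) ^ 2 / ζ₀ ^ j) 𝒰 (𝓝 (k ζ₀ ^ 2 / ζ₀ ^ j)) :=
      (h1.pow 2).div tendsto_const_nhds (zpow_ne_zero _ h0)
    have h3 : (3 / 4 * ‖c₁‖) ^ 2 * (4 * R₁) ^ (2 * p - j) < ‖k ζ₀ ^ 2 / ζ₀ ^ j‖ := by
      have h4 := (hR₁ ζ₀ (by rw [hn]; linarith)).1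
      have h5 : k ζ₀ ^ 2 / ζ₀ ^ j = (k ζ₀ / ζ₀ ^ p) ^ 2 * ζ₀ ^ (2 * p - j) := by
        rw [zpow_sub₀ h0, div_pow, ← zpow_natCast (ζ₀ ^ p) 2, ← zpow_mul, mul_comm p]
        have := zpow_ne_zero (2 * p) h0
        push_cast
        field_simp
      rw [h5, norm_mul, norm_pow, norm_zpow, hn]
      have h6 : 0 < (4 * R₁) ^ (2 * p - j) := zpow_pos (by linarith) _
      have h7 : 0 ≤ ‖c₁‖ := norm_nonneg _
      gcongr
    exact h2.norm.eventually (lt_mem_nhds h3)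
  -- the outer estimates
  have hout1 : ∀ᶠ n in (𝒰 : Filter ℕ), ∀ y ∈ sphere (0 : ℂ) s, ‖h n (b n + y) ^ 2 / y ^ j‖ < (5 / 4 * ‖c₀‖) ^ 2 * s ^ (2 * q - j) := by
    refine unif_of_seq (isCompact_sphere _ _) fun y₀ hy₀ y hy1 hy2 => ?_
    have hn : ‖y₀‖ = s := by simpa using hy₀
    have h0 : y₀ ≠ 0 := by
      rintro rfl
      rw [norm_zero] at hn
      linarith
    have hw : w + y₀ ≠ w := by simpa using h0
    have hdist : dist (w + y₀) w = s := by rw [dist_eq_norm, add_sub_cancel_left, hn]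
    have h1 := hout (w + y₀) ⟨hw, by rw [hdist]; exact hsr⟩ (fun n => b n + y n) (hb.add hy2)
    have h2 : Tendsto (fun n => h n (b n + y n) ^ 2 / y n ^ j) 𝒰 (𝓝 (h₀ (w + y₀) ^ 2 / y₀ ^ j)) :=
      (h1.pow 2).div (hy2.zpow₀ j (Or.inl h0)) (zpow_ne_zero _ h0)
    have h3 : ‖h₀ (w + y₀) ^ 2 / y₀ ^ j‖ < (5 / 4 * ‖c₀‖) ^ 2 * s ^ (2 * q - j) := by
      have h4 := (hs (w + y₀) hw hdist.le).2
      rw [add_sub_cancel_left] at h4
      have h5 : h₀ (w + y₀) ^ 2 / y₀ ^ j = (h₀ (w + y₀) / y₀ ^ q) ^ 2 * y₀ ^ (2 * q - j) := by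
        rw [zpow_sub₀ h0, div_pow, ← zpow_natCast (y₀ ^ q) 2, ← zpow_mul, mul_comm q]
        have := zpow_ne_zero (2 * q) h0
        push_cast
        field_simp
      rw [h5, norm_mul, norm_pow, norm_zpow, hn]
      have h6 : 0 < s ^ (2 * q - j) := zpow_pos hs0 _
      gcongr
    exact (h2.norm.eventually (gt_mem_nhds h3)).frequently
  have hout2 : ∀ᶠ n in (𝒰 : Filter ℕ),
      (3 / 4 * ‖c₀‖) ^ 2 * (s / 4) ^ (2 * q - j) < ‖h n (b n + ((s / 4 : ℝ) : ℂ)) ^ 2 / ((s / 4 : ℝ) : ℂ) ^ j‖ := by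
    have hn : ‖((s / 4 : ℝ) : ℂ)‖ = s / 4 := by
      rw [Complex.norm_real, Real.norm_of_nonneg (by linarith)]
    set y₀ : ℂ := ((s / 4 : ℝ) : ℂ) with hy₀
    have h0 : y₀ ≠ 0 := by
      intro h
      rw [h, norm_zero] at hn
      linarith
    have hw : w + y₀ ≠ w := by simpa using h0
    have hdist : dist (w + y₀) w = s / 4 := by rw [dist_eq_norm, add_sub_cancel_left, hn]
    have h1 := hout (w + y₀) ⟨hw, by rw [hdist]; linarith⟩ (fun n => b n + y₀) (hb.add tendsto_const_nhds)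
    have h2 : Tendsto (fun n => h n (b n + y₀) ^ 2 / y₀ ^ j) 𝒰 (𝓝 (h₀ (w + y₀) ^ 2 / y₀ ^ j)) :=
      (h1.pow 2).div tendsto_const_nhds (zpow_ne_zero _ h0)
    have h3 : (3 / 4 * ‖c₀‖) ^ 2 * (s / 4) ^ (2 * q - j) < ‖h₀ (w + y₀) ^ 2 / y₀ ^ j‖ := by
      have h4 := (hs (w + y₀) hw (by rw [hdist]; linarith)).1
      rw [add_sub_cancel_left] at h4
      have h5 : h₀ (w + y₀) ^ 2 / y₀ ^ j = (h₀ (w + y₀) / y₀ ^ q) ^ 2 * y₀ ^ (2 * q - j) := by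
        rw [zpow_sub₀ h0, div_pow, ← zpow_natCast (y₀ ^ q) 2, ← zpow_mul, mul_comm q]
        have := zpow_ne_zero (2 * q) h0
        push_cast
        field_simp
      rw [h5, norm_mul, norm_pow, norm_zpow, hn]
      have h6 : 0 < (s / 4) ^ (2 * q - j) := zpow_pos (by linarith) _
      have h7 : 0 ≤ ‖c₀‖ := norm_nonneg _
      gcongr
    exact h2.norm.eventually (lt_mem_nhds h3)
  -- comparison of the constants
  have hcmp1 : (5 / 4 * ‖c₁‖) ^ 2 * R₁ ^ (2 * p - j) ≤ (3 / 4 * ‖c₁‖) ^ 2 * (4 * R₁) ^ (2 * p - j) := by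
    have h1 : (4 : ℝ) ^ (1 : ℤ) ≤ 4 ^ (2 * p - j) := zpow_le_zpow_right₀ (by norm_num) (by omega)
    rw [zpow_one] at h1
    rw [mul_zpow]
    have h6 : 0 < R₁ ^ (2 * p - j) := zpow_pos (by linarith) _
    have h7 : 0 < ‖c₁‖ ^ 2 := by positivity
    nlinarith [mul_pos h6 h7, mul_le_mul_of_nonneg_right h1 (mul_pos h6 h7).le]
  have hcmp0 : (5 / 4 * ‖c₀‖) ^ 2 * s ^ (2 * q - j) ≤ (3 / 4 * ‖c₀‖) ^ 2 * (s / 4) ^ (2 * q - j) := by
    have h1 : 2 * q - j = -1 := by omega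
    rw [h1, zpow_neg_one, zpow_neg_one]
    have h7 : 0 < ‖c₀‖ ^ 2 := by positivity
    have h8 : (s / 4)⁻¹ = 4 * s⁻¹ := by
      field_simp
    rw [h8]
    have h9 : 0 < s⁻¹ := inv_pos.2 hs0
    nlinarith [mul_pos h7 h9]
  have hρ1 : ∀ᶠ n in (𝒰 : Filter ℕ), 4 * R₁ * ρ n < s / 4 := by
    have h1 : Tendsto (fun n => 4 * R₁ * ρ n) 𝒰 (𝓝 (4 * R₁ * 0)) := hρ.const_mul _
    rw [mul_zero] at h1
    exact h1.eventually (gt_mem_nhds (by linarith))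
  obtain ⟨n, ⟨h1, h2⟩, ⟨h3, h4⟩, ⟨h5, h6⟩, h7, h8⟩ :=
    ((hin1.and hin2).and ((hout1.and hout2).and ((hρ1.and hρp).and (ht.and hd)))).exists
  have hρ0 : (ρ n : ℂ) ≠ 0 := by exact_mod_cast h6.ne'
  refine no_peak (b := b n) (r₁ := R₁ * ρ n) (r₂ := s) (g := fun z => h n z ^ 2 / (z - b n) ^ j) (z₁ := b n + ρ n * ((4 * R₁ : ℝ) : ℂ))
    (z₂ := b n + ((s / 4 : ℝ) : ℂ)) ?_ ?_ ?_ ?_ ?_ ?_ ?_
  · intro x hx1 hx2
    have hx3 : x - b n ≠ 0 := by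
      intro h0
      rw [dist_eq_norm, h0, norm_zero] at hx1
      nlinarith
    have hx4 := h8 x (by nlinarith) (by linarith)
    exact (hx4.pow 2).div ((differentiableAt_id.sub_const (b n)).zpow (Or.inl hx3)) (zpow_ne_zero _ hx3)
  · rw [dist_eq_norm, add_sub_cancel_left, norm_mul, Complex.norm_real, Complex.norm_real, Real.norm_of_nonneg h6.le,
      Real.norm_of_nonneg (by linarith)]
    nlinarith
  · rw [dist_eq_norm, add_sub_cancel_left, norm_mul, Complex.norm_real, Complex.norm_real, Real.norm_of_nonneg h6.le,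
      Real.norm_of_nonneg (by linarith)]
    nlinarith
  · rw [dist_eq_norm, add_sub_cancel_left, Complex.norm_real, Real.norm_of_nonneg (by linarith)]
    nlinarith
  · rw [dist_eq_norm, add_sub_cancel_left, Complex.norm_real, Real.norm_of_nonneg (by linarith)]
    linarith
  · intro z hz
    have hz' : z = b n + ρ n * ((z - b n) / ρ n) := by
      field_simp
      ring
    have h9 := h1 ((z - b n) / ρ n) (by
      rw [mem_sphere_zero_iff_norm, norm_div, Complex.norm_real, Real.norm_of_nonneg h6.le, ← dist_eq_norm, hz, mul_div_assoc,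
        div_self h6.ne', mul_one])
    rw [← hz'] at h9
    have h10 := (h9.trans_le hcmp1).trans h2
    have h11 : ∀ x : ℂ, x ≠ 0 → ∀ y : ℂ, ‖y ^ 2 / (ρ n * x) ^ j‖ = ‖(y / t n) ^ 2 / x ^ j‖ * (‖t n‖ ^ 2 / ρ n ^ j) := by
      intro x hx y
      rw [norm_div, norm_div, norm_pow, norm_pow, norm_div, norm_zpow, norm_zpow, norm_mul, Complex.norm_real,
        Real.norm_of_nonneg h6.le, mul_zpow]
      have h12 : ‖t n‖ ≠ 0 := norm_ne_zero_iff.2 h7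
      have h13 : ‖x‖ ^ j ≠ 0 := zpow_ne_zero _ (norm_ne_zero_iff.2 hx)
      have h14 : ρ n ^ j ≠ 0 := zpow_ne_zero _ h6.ne'
      field_simp
    have hz0 : z - b n ≠ 0 := by
      intro h0
      rw [dist_eq_norm, h0, norm_zero] at hz
      nlinarith
    have h12 := h11 ((z - b n) / ρ n) (div_ne_zero hz0 hρ0) (h n z)
    have h13 := h11 ((4 * R₁ : ℝ) : ℂ) (by
      rw [Ne, Complex.ofReal_eq_zero]
      linarith) (h n (b n + ρ n * ((4 * R₁ : ℝ) : ℂ)))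
    have h14 : (ρ n : ℂ) * ((z - b n) / ρ n) = z - b n := by
      field_simp
    rw [h14] at h12
    show ‖h n z ^ 2 / (z - b n) ^ j‖ < ‖h n (b n + ρ n * ((4 * R₁ : ℝ) : ℂ)) ^ 2 / (b n + ρ n * ((4 * R₁ : ℝ) : ℂ) - b n) ^ j‖
    rw [add_sub_cancel_left, h12, h13]
    have h15 : 0 < ‖t n‖ ^ 2 / ρ n ^ j := by
      have := norm_pos_iff.2 h7
      have := zpow_pos h6 j
      positivity
    exact mul_lt_mul_of_pos_right h10 h15
  · intro z hz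
    have h9 := h3 (z - b n) (by rw [mem_sphere_zero_iff_norm, ← dist_eq_norm, hz])
    rw [add_sub_cancel] at h9
    show ‖h n z ^ 2 / (z - b n) ^ j‖ < ‖h n (b n + ((s / 4 : ℝ) : ℂ)) ^ 2 / (b n + ((s / 4 : ℝ) : ℂ) - b n) ^ j‖
    rw [add_sub_cancel_left]
    exact (h9.trans_le hcmp0).trans h4

end Pool.Agent.H59.NB
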