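import Pool.Agent.H59.NB.Neck

/-!
# NB NeckZ: a coordinate which vanishes at the point of the neck has a zero in the neck
-/

set_option autoImplicit false

open Topology Filter Metric Bornology

namespace Pool.Agent.H59.NB

open Pool.Agent.H74.NB

variable {E : Type*} [NormedAddCommGroup E] [NormedSpace ℂ E] [CompleteSpace E] {𝒰 : Ultrafilter ℕ}

/-- an analytic function which is not identically zero near a point is a power times a function with a nonzero value -/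
theorem exists_lead {f : ℂ → ℂ} {w : ℂ} (hf : AnalyticAt ℂ f w) (h0 : ¬ ∀ᶠ z in 𝓝 w, f z = 0) :
    ∃ (q : ℕ) (c : ℂ), c ≠ 0 ∧ (f w = 0 → 1 ≤ q) ∧ (∀ᶠ z in 𝓝[≠] w, f z ≠ 0) ∧
      Tendsto (fun z => f z / (z - w) ^ (q : ℤ)) (𝓝[≠] w) (𝓝 c) := by
  obtain ⟨q, g, hg, hg0, hfg⟩ := (hf.exists_eventuallyEq_pow_smul_nonzero_iff).2 h0
  refine ⟨q, g w, hg0, ?_, ?_, ?_⟩
  · intro hw
    by_contra hq
    have hq0 : q = 0 := by omega
    have h1 := hfg.self_of_nhds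
    rw [hw, hq0, pow_zero, one_smul] at h1
    exact hg0 h1.symm
  · have h1 : ∀ᶠ z in 𝓝[≠] w, g z ≠ 0 := nhdsWithin_le_nhds (hg.continuousAt.eventually_ne hg0)
    filter_upwards [h1, nhdsWithin_le_nhds hfg, self_mem_nhdsWithin] with z h2 h3 h4
    rw [h3, smul_eq_mul]
    exact mul_ne_zero (pow_ne_zero _ (sub_ne_zero.2 h4)) h2
  · have h1 : Tendsto g (𝓝[≠] w) (𝓝 (g w)) := hg.continuousAt.tendsto.mono_left nhdsWithin_le_nhds
    refine h1.congr' ?_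
    filter_upwards [nhdsWithin_le_nhds hfg, self_mem_nhdsWithin] with z h3 h4
    rw [h3, smul_eq_mul, zpow_natCast]
    have h5 : (z - w) ^ q ≠ 0 := pow_ne_zero _ (sub_ne_zero.2 h4)
    field_simp

/-- **A coordinate which vanishes at the point of the neck has a zero in the neck**, if it does not vanish identically on the limits at both ends. -/
theorem zero_in_neck {Φ : ℕ → ℂ → E} {w : ℂ} {M : ℕ} {G : ℂ → E} {r : ℝ} (hr : 0 < r)
    (hol : ∀ᶠ n in (𝒰 : Filter ℕ), DifferentiableOn ℂ (Φ n) (ball w r))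
    (cc : CC 𝒰 Φ (fun z => (z - w) ^ M • G z) (ball w r)) (holG : DifferentiableOn ℂ G (ball w r))
    {b : ℕ → ℂ} {ρ : ℕ → ℝ} (hb : Tendsto b 𝒰 (𝓝 w)) (hρp : ∀ᶠ n in (𝒰 : Filter ℕ), 0 < ρ n) (hρ : Tendsto ρ 𝒰 (𝓝 0))
    {P : ℂ → E} (hP : CC 𝒰 (fun n ζ => ((ρ n : ℂ) ^ M)⁻¹ • Φ n (b n + ρ n * ζ)) P Set.univ)
    {Pr : ℂ → E} (hPr : AnalyticAt ℂ Pr 0) (hPr0 : Pr 0 = G w) (hPPr : ∀ t : ℂ, t ≠ 0 → Pr t = t ^ M • P t⁻¹)
    {τ : E → ℂ} (hτ : AnalyticAt ℂ τ (G w)) (hτ0 : τ (G w) = 0)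
    (h1 : ¬ ∀ᶠ z in 𝓝 w, τ (G z) = 0) (h2 : ¬ ∀ᶠ t in 𝓝 (0 : ℂ), τ (Pr t) = 0) (R s : ℝ) (hs : 0 < s) :
    ∀ᶠ n in (𝒰 : Filter ℕ), ∃ z, R * ρ n < dist z (b n) ∧ dist z (b n) < s ∧ τ (((z - b n) ^ M)⁻¹ • Φ n z) = 0 := by
  by_contra hcon
  rw [← Ultrafilter.eventually_not] at hcon
  push Not at hcon
  have hwr : ball w r ∈ 𝓝 w := ball_mem_nhds w hr
  have hGa : AnalyticAt ℂ G w := holG.analyticAt hwr
  -- the ball where `τ` is analytic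
  obtain ⟨ε, hε, hτan⟩ : ∃ ε, 0 < ε ∧ ∀ y ∈ ball (G w) ε, AnalyticAt ℂ τ y := by
    obtain ⟨ε, hε, h3⟩ := Metric.mem_nhds_iff.1 hτ.eventually_analyticAt
    exact ⟨ε, hε, fun y hy => h3 hy⟩
  have hP1 : Tendsto (fun ζ : ℂ => (ζ ^ M)⁻¹ • P ζ) (cobounded ℂ) (𝓝 (G w)) := by
    have h3 : Tendsto (fun ζ : ℂ => Pr ζ⁻¹) (cobounded ℂ) (𝓝 (Pr 0)) :=
      hPr.continuousAt.tendsto.comp tendsto_inv₀_cobounded
    rw [hPr0] at h3
    refine h3.congr' ?_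
    have h4 : ∀ᶠ ζ : ℂ in cobounded ℂ, ζ ≠ 0 := eventually_ne_cobounded 0
    filter_upwards [h4] with ζ hζ
    rw [hPPr _ (inv_ne_zero hζ), inv_inv, inv_pow]
  obtain ⟨R₀, s₀, hR₀, hs₀, hs₀r, hneck⟩ := neck_close hr hol cc hGa.continuousAt hb hρp hP hP1 (half_pos hε)
  -- the leading terms
  have ha1 : AnalyticAt ℂ (fun z => τ (G z)) w := hτ.comp hGa
  have ha2 : AnalyticAt ℂ (fun t => τ (Pr t)) 0 := by
    have h3 : AnalyticAt ℂ τ (Pr 0) := by rw [hPr0]; exact hτ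
    exact h3.comp hPr
  obtain ⟨q, c₀, hc₀, hq1, hq0, hq⟩ := exists_lead ha1 h1
  obtain ⟨p, c₁, hc₁, hp1, hp0, hp⟩ := exists_lead ha2 h2
  have hq1' : 1 ≤ q := hq1 hτ0
  have hp1' : 1 ≤ p := hp1 (by rw [hPr0]; exact hτ0)
  -- the radii
  obtain ⟨s₁, hs₁, hs₁1⟩ : ∃ s₁, 0 < s₁ ∧ ∀ z, z ≠ w → dist z w < s₁ → τ (G z) ≠ 0 ∧ G z ∈ ball (G w) ε := by
    have h3 : ∀ᶠ z in 𝓝[≠] w, G z ∈ ball (G w) ε :=
      nhdsWithin_le_nhds (hGa.continuousAt.eventually (ball_mem_nhds _ hε))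
    have h4 := hq0.and h3
    rw [eventually_nhdsWithin_iff] at h4
    obtain ⟨s₁, hs₁, h5⟩ := Metric.mem_nhds_iff.1 h4
    exact ⟨s₁, hs₁, fun z hz hzs => h5 hzs hz⟩
  obtain ⟨R₁, hR₁0, hR₁⟩ : ∃ R₁ : ℝ, 0 < R₁ ∧ ∀ ζ : ℂ, R₁ < ‖ζ‖ → τ ((ζ ^ M)⁻¹ • P ζ) ≠ 0 ∧ (ζ ^ M)⁻¹ • P ζ ∈ ball (G w) ε := by
    have h3 : ∀ᶠ t in 𝓝[≠] (0 : ℂ), Pr t ∈ ball (G w) ε := by
      have : Tendsto Pr (𝓝[≠] 0) (𝓝 (G w)) := by
        rw [← hPr0]
        exact hPr.continuousAt.tendsto.mono_left nhdsWithin_le_nhds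
      exact this.eventually (ball_mem_nhds _ hε)
    have h4 := hp0.and h3
    rw [eventually_nhdsWithin_iff] at h4
    obtain ⟨δ, hδ, h5⟩ := Metric.mem_nhds_iff.1 h4
    refine ⟨δ⁻¹, inv_pos.2 hδ, fun ζ hζ => ?_⟩
    have hζ0 : ζ ≠ 0 := by
      rintro rfl
      rw [norm_zero] at hζ
      exact absurd hζ (not_lt.2 (inv_pos.2 hδ).le)
    have h6' : ζ⁻¹ ∈ ball (0 : ℂ) δ := by
      rw [mem_ball, dist_zero_right, norm_inv]
      exact inv_lt_of_inv_lt₀ hδ hζ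
    have h6 := h5 h6' (inv_ne_zero hζ0)
    rw [hPPr _ (inv_ne_zero hζ0), inv_inv, inv_pow] at h6
    exact h6
  set R₂ : ℝ := max (max R₀ R₁) (max R 0) with hR₂
  set s₂ : ℝ := min (min s₀ s₁) (min s r) with hs₂
  have hs₂0 : 0 < s₂ := lt_min (lt_min hs₀ hs₁) (lt_min hs hr)
  have hR₂0 : 0 ≤ R₂ := (le_max_right _ _).trans (le_max_right _ _)
  -- the function
  set h : ℕ → ℂ → ℂ := fun n z => (τ (((z - b n) ^ M)⁻¹ • Φ n z))⁻¹ with hh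
  have hb' : ∀ᶠ n in (𝒰 : Filter ℕ), dist (b n) w < r - s₀ := hb.eventually (ball_mem_nhds w (by linarith))
  have hmono : (-(-(p : ℤ)) : ℤ) ≤ -(q : ℤ) := by
    refine neck_mono (𝒰 := 𝒰) (h := h) (w := w) (r := s₂) hs₂0 (R := R₂) (b := b) (ρ := ρ) ?_ hb hρp hρ
      (h₀ := fun z => (τ (G z))⁻¹) ?_ (c₀ := c₀⁻¹) (inv_ne_zero hc₀) ?_ (t := fun _ => 1) (Eventually.of_forall fun _ => one_ne_zero)
      (k := fun ζ => (τ ((ζ ^ M)⁻¹ • P ζ))⁻¹) ?_ (c₁ := c₁⁻¹) (inv_ne_zero hc₁) ?_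
    · -- holomorphic in the neck
      filter_upwards [hneck R₀ le_rfl s₀ hs₀ le_rfl, hcon, hρp, hol, hb'] with n h3 h4 h5 h6 h7 z hz1 hz2
      have hz3 : R₀ * ρ n ≤ dist z (b n) :=
        (mul_le_mul_of_nonneg_right ((le_max_left _ _).trans (le_max_left _ _)) h5.le).trans hz1.le
      have hz4 : dist z (b n) ≤ s₀ := hz2.le.trans ((min_le_left _ _).trans (min_le_left _ _))
      have hz5 : R * ρ n < dist z (b n) :=
        (mul_le_mul_of_nonneg_right ((le_max_left _ _).trans (le_max_right _ _)) h5.le).trans_lt hz1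
      have hz6 : dist z (b n) < s := hz2.trans_le ((min_le_right _ _).trans (min_le_left _ _))
      have hz7 : z - b n ≠ 0 := by
        intro h0
        rw [dist_eq_norm, h0, norm_zero] at hz1
        exact absurd hz1 (not_lt.2 (mul_nonneg hR₂0 h5.le))
      have hz8 : z ∈ ball w r := by
        rw [mem_ball]
        linarith [dist_triangle z (b n) w]
      have h8 := h3 z hz3 hz4
      have h9 : ((z - b n) ^ M)⁻¹ • Φ n z ∈ ball (G w) ε := by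
        rw [mem_ball, dist_eq_norm]
        linarith
      have h10 : DifferentiableAt ℂ (fun z => ((z - b n) ^ M)⁻¹ • Φ n z) z := by
        have h11 : DifferentiableAt ℂ (Φ n) z := h6.differentiableAt (isOpen_ball.mem_nhds hz8)
        exact (((differentiableAt_id.sub_const (b n)).pow M).inv (pow_ne_zero _ hz7)).smul h11
      have h11 : DifferentiableAt ℂ (fun z => τ (((z - b n) ^ M)⁻¹ • Φ n z)) z :=
        (hτan _ h9).differentiableAt.comp z h10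
      exact h11.inv (h4 z hz5 hz6)
    · -- the outer limit
      intro z₀ hz₀ z hz
      have hz₀1 : z₀ ≠ w := hz₀.1
      have hz₀2 : dist z₀ w < s₂ := hz₀.2
      have hz₀3 := hs₁1 z₀ hz₀1 (hz₀2.trans_le ((min_le_left _ _).trans (min_le_right _ _)))
      have hz₀4 : z₀ ∈ ball w r := hz₀2.trans_le ((min_le_right _ _).trans (min_le_right _ _))
      have h3 := cc z₀ hz₀4 z hz
      have h4 : Tendsto (fun n => ((z n - b n) ^ M)⁻¹ • Φ n (z n)) 𝒰 (𝓝 (((z₀ - w) ^ M)⁻¹ • ((z₀ - w) ^ M • G z₀))) :=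
        (((hz.sub hb).pow M).inv₀ (pow_ne_zero _ (sub_ne_zero.2 hz₀1))).smul h3
      rw [smul_smul, inv_mul_cancel₀ (pow_ne_zero _ (sub_ne_zero.2 hz₀1)), one_smul] at h4
      exact ((hτan _ hz₀3.2).continuousAt.tendsto.comp h4).inv₀ hz₀3.1
    · have h3 := hq.inv₀ hc₀
      refine h3.congr fun z => ?_
      rw [inv_div, zpow_neg, div_inv_eq_mul, mul_comm, div_eq_mul_inv, mul_comm]
    · -- the inner limit
      intro ζ₀ hζ₀ ζ hζ
      have hζ₀1 : R₂ < ‖ζ₀‖ := hζ₀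
      have hζ₀2 : ζ₀ ≠ 0 := by
        rintro rfl
        rw [norm_zero] at hζ₀1
        exact absurd hζ₀1 (not_lt.2 hR₂0)
      have hζ₀3 := hR₁ ζ₀ (((le_max_right _ _).trans (le_max_left _ _)).trans_lt hζ₀1)
      have h3 := hP ζ₀ (Set.mem_univ _) ζ hζ
      have h4 : Tendsto (fun n => (ζ n ^ M)⁻¹ • (((ρ n : ℂ) ^ M)⁻¹ • Φ n (b n + ρ n * ζ n))) 𝒰 (𝓝 ((ζ₀ ^ M)⁻¹ • P ζ₀)) :=
        ((hζ.pow M).inv₀ (pow_ne_zero _ hζ₀2)).smul h3
      have h5 := ((hτan _ hζ₀3.2).continuousAt.tendsto.comp h4).inv₀ hζ₀3.1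
      refine h5.congr' ?_
      refine Eventually.of_forall fun n => ?_
      simp only [Function.comp_apply, hh, div_one, add_sub_cancel_left]
      rw [smul_smul, mul_pow, mul_inv_rev]
    · have h3 : Tendsto (fun ζ : ℂ => τ (Pr ζ⁻¹) / (ζ⁻¹ - 0) ^ (p : ℤ)) (cobounded ℂ) (𝓝 c₁) := by
        have h4 : Tendsto (fun ζ : ℂ => ζ⁻¹) (cobounded ℂ) (𝓝[≠] 0) := tendsto_inv₀_cobounded'
        exact hp.comp h4
      refine (h3.inv₀ hc₁).congr' ?_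
      have h4 : ∀ᶠ ζ : ℂ in cobounded ℂ, ζ ≠ 0 := eventually_ne_cobounded 0
      filter_upwards [h4] with ζ hζ
      rw [hPPr _ (inv_ne_zero hζ), inv_inv, inv_pow, sub_zero, inv_div, inv_zpow, neg_neg, div_eq_mul_inv, div_eq_mul_inv, mul_comm]
  omega

end Pool.Agent.H59.NB
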